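import Pool.Agent.N20.DI.Stm3
import Pool.Agent.R674.Tw.Blocks

/-!
# The numbers of characters depend only on the stabiliser of the chain
-/

set_option autoImplicit false

open scoped Classical

noncomputable section

namespace Pool.Agent.N386.DI

open Pool.Agent.Y63.NV
open Pool.Agent.Y63.KR
open Pool.Agent.Y63.AWC (IsIrreducibleCharacter)
open Pool.Agent.R674.Tw (Fixes GCh NG NE NEbar ng_le IndB invSum mem_NEbar FixY)
open Pool.Agent.N20.DI

section

variable {F : Type} [Field F] {E : Type} [Group E]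

/-- the number of characters of `G ∩ S` in a block whose inertial cosets satisfy `Q` -/
def cnt (p : ℕ) (red : integralClosure ℤ ℂ →+* F) (G : Subgroup E)
    (B : (G → F) → F) (d : ℕ) (Q : (E ⧸ G → Prop) → Prop) (S : Subgroup E) : ℕ :=
  Nat.card {χ : ↥(G ⊓ S) → ℂ // IsIrreducibleCharacter χ ∧ HasDef p d χ ∧
    Q (fun y => ∃ h ∈ S, (h : E ⧸ G) = y ∧ Fixes h χ) ∧
    ∀ f : G → F, IsClassFun f →
      centralValue red χ (fun x => f ⟨x, (Subgroup.mem_inf.1 x.2).1⟩) = B f}

theorem kdU_cnt [Finite E] (p : ℕ) (red : integralClosure ℤ ℂ →+* F) (G : Subgroup E) [G.Normal]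
    (B : (G → F) → F) (d : ℕ) (U : Subgroup (E ⧸ G)) (σ : Set (Subgroup E)) :
    kdU p red G B d U σ = cnt p red G B d (fun R => ∀ y, R y ↔ y ∈ U) (chainStabilizer σ) := by
  unfold kdU cnt
  refine Nat.card_congr (Equiv.subtypeEquivRight fun χ => ?_)
  refine and_congr_right fun _ => and_congr_right fun _ => ?_
  refine and_congr ?_ Iff.rfl
  constructor
  · intro h y
    rw [← h]
    exact (mem_NEbar G y σ χ).symm
  · intro h
    ext y
    rw [← h y]
    exact mem_NEbar G y σ χ

theorem kdGe_cnt [Finite E] (p : ℕ) (red : integralClosure ℤ ℂ →+* F) (G : Subgroup E) [G.Normal]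
    (B : (G → F) → F) (d : ℕ) (U : Subgroup (E ⧸ G)) (σ : Set (Subgroup E)) :
    kdGe p red G B d U σ = cnt p red G B d (fun R => ∀ y, y ∈ U → R y) (chainStabilizer σ) := by
  unfold kdGe cnt
  refine Nat.card_congr (Equiv.subtypeEquivRight fun χ => ?_)
  refine and_congr_right fun _ => and_congr_right fun _ => ?_
  refine and_congr ?_ Iff.rfl
  constructor
  · intro h y hy
    exact (mem_NEbar G y σ χ).1 (h hy)
  · intro h y hy
    exact (mem_NEbar G y σ χ).2 (h y hy)

end

/-- KST: the numbers depend only on the stabiliser -/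
theorem KST : S_KST := by
  intro p _ F _ red E _ _ G _ B d U σ τ h
  rw [kdU_cnt, kdU_cnt, kdGe_cnt, kdGe_cnt, h]
  exact ⟨rfl, rfl⟩

end Pool.Agent.N386.DI
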