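import Pool.Agent.N585.LB.Defs

/-!
# Project LB, task 8: discrete copies of basis elements, subintervals
-/

namespace Pool.Agent.N386.LB8

open Cardinal Set Pool.Agent.N585.LB

universe u

theorem part1 (J : Type) (T : J → Type u) [∀ j, LinearOrder (T j)]
    (hb : ∀ (S : Type u) [LinearOrder S], Uncountable S → ∃ j, Nonempty (T j ↪o S))
    (L : Type u) [LinearOrder L] [DenselyOrdered L] (a b : L)
    (hc : ¬ CCC ↥(Ioo a b)) : ∃ j, Discr (T j) L a b := by
  unfold CCC at hc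
  push Not at hc
  obtain ⟨F, hne, hdis, hunc⟩ := hc
  have hch : ∀ p : ↥F, ∃ c : ↥(Ioo a b), c ∈ Ioo p.1.1 p.1.2 := fun p => hne p.1 p.2
  choose c hcm using hch
  have hinj : Function.Injective c := by
    intro p q hpq
    by_contra hne'
    have h1 := hdis p.2 q.2 (fun h => hne' (Subtype.ext h))
    have h2 := Set.disjoint_left.mp h1 (hcm p)
    apply h2
    rw [hpq]
    exact hcm q
  have hU : Uncountable ↥(range c) := by
    have hF : Uncountable ↥F := by
      rw [← not_countable_iff]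
      intro h
      exact hunc (Set.countable_coe_iff.mp h)
    have e : ↥F ≃ ↥(range c) := Equiv.ofInjective c hinj
    exact e.injective.uncountable
  obtain ⟨j, ⟨phi⟩⟩ := hb ↥(range c) hU
  have hq : ∀ t : T j, ∃ p : ↥F, c p = (phi t).1 := fun t => (phi t).2
  choose q hqc using hq
  refine ⟨j, fun t => ((q t).1.1 : L), fun t => ((q t).1.2 : L), ?_, ?_⟩
  · intro t
    refine ⟨le_of_lt (q t).1.1.2.1, ?_, le_of_lt (q t).1.2.2.2⟩
    have h := hcm (q t)
    have h' : (q t).1.1 < (q t).1.2 := h.1.trans h.2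
    exact h'
  · intro s t hst
    have hlt : c (q s) < c (q t) := by
      rw [hqc, hqc]
      exact phi.lt_iff_lt.mpr hst
    by_contra hcon
    push Not at hcon
    have hs := hcm (q s)
    have ht := hcm (q t)
    have hne' : (q s).1 ≠ (q t).1 := by
      intro h
      have : q s = q t := Subtype.ext h
      rw [this] at hlt
      exact lt_irrefl _ hlt
    have hd := hdis (q s).2 (q t).2 hne'
    -- max of the left endpoints is less than min of the right endpoints
    have hsL : ((q s).1.1 : L) < (c (q s) : L) ∧ (c (q s) : L) < ((q s).1.2 : L) := hs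
    have htL : ((q t).1.1 : L) < (c (q t) : L) ∧ (c (q t) : L) < ((q t).1.2 : L) := ht
    have hltL : (c (q s) : L) < (c (q t) : L) := hlt
    have h1 : max ((q s).1.1 : L) ((q t).1.1 : L) < min ((q s).1.2 : L) ((q t).1.2 : L) := by
      apply max_lt
      · apply lt_min
        · exact hsL.1.trans hsL.2
        · exact (hsL.1.trans hltL).trans htL.2
      · apply lt_min
        · exact hcon
        · exact htL.1.trans htL.2
    obtain ⟨z, hz1, hz2⟩ := exists_between h1
    have hzs1 : ((q s).1.1 : L) < z := lt_of_le_of_lt (le_max_left _ _) hz1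
    have hzt1 : ((q t).1.1 : L) < z := lt_of_le_of_lt (le_max_right _ _) hz1
    have hzs2 : z < ((q s).1.2 : L) := lt_of_lt_of_le hz2 (min_le_left _ _)
    have hzt2 : z < ((q t).1.2 : L) := lt_of_lt_of_le hz2 (min_le_right _ _)
    have hzm : z ∈ Ioo a b := ⟨(q s).1.1.2.1.trans hzs1, hzs2.trans (q s).1.2.2.2⟩
    have hA : (⟨z, hzm⟩ : ↥(Ioo a b)) ∈ Ioo (q s).1.1 (q s).1.2 := ⟨hzs1, hzs2⟩
    have hB : (⟨z, hzm⟩ : ↥(Ioo a b)) ∈ Ioo (q t).1.1 (q t).1.2 := ⟨hzt1, hzt2⟩
    exact Set.disjoint_left.mp hd hA hB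

theorem part2 (L : Type u) [LinearOrder L] (a b : L) (hL : InC L) (hab : a < b) :
    InC ↥(Ioo a b) := by
  have hdo : ∀ x y : L, x < y → ∃ z, x < z ∧ z < y := by
    intro x y hxy
    have h := hL.dense x y hxy
    have hne : (Ioo x y).Nonempty := by
      rw [Set.nonempty_iff_ne_empty]
      intro h0
      rw [h0, Cardinal.mk_emptyCollection] at h
      exact (Cardinal.aleph_pos 1).ne h
    obtain ⟨z, hz⟩ := hne
    exact ⟨z, hz.1, hz.2⟩
  refine ⟨?_, ?_, ?_, ?_⟩
  · obtain ⟨x, hx1, hx2⟩ := hdo a b hab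
    obtain ⟨y, hy1, hy2⟩ := hdo x b hx2
    exact ⟨⟨x, hx1, hx2⟩, ⟨y, hx1.trans hy1, hy2⟩, hy1⟩
  · intro x y hxy
    have h := hL.dense x.1 y.1 hxy
    rw [← h]
    refine Cardinal.mk_congr ⟨fun z => ⟨z.1.1, z.2.1, z.2.2⟩,
      fun z => ⟨⟨z.1, x.2.1.trans z.2.1, z.2.2.trans y.2.2⟩, z.2.1, z.2.2⟩, ?_, ?_⟩
    · intro z; rfl
    · intro z; rfl
  · intro x _
    obtain ⟨s, hs1, hs2⟩ := hL.cof x.1 ⟨a, x.2.1⟩
    have h1 : ∃ n, a < s n := by
      by_contra hcon
      push Not at hcon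
      have : x.1 ≤ a := hs2.2 (by rintro _ ⟨n, rfl⟩; exact hcon n)
      exact absurd x.2.1 (not_lt.mpr this)
    obtain ⟨n, hn⟩ := h1
    have hsx : ∀ m, s m < x.1 := by
      intro m
      exact lt_of_lt_of_le (hs1 (Nat.lt_succ_self m)) (hs2.1 ⟨m + 1, rfl⟩)
    have hmem : ∀ m, s (n + m) ∈ Ioo a b := fun m =>
      ⟨lt_of_lt_of_le hn (hs1.monotone (Nat.le_add_right n m)), (hsx _).trans x.2.2⟩
    refine ⟨fun m => ⟨s (n + m), hmem m⟩, ?_, ?_, ?_⟩
    · intro i j hij
      exact hs1 (Nat.add_lt_add_left hij n)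
    · rintro _ ⟨m, rfl⟩
      exact le_of_lt (hsx (n + m))
    · intro y hy
      apply hs2.2
      rintro _ ⟨m, rfl⟩
      have h2 : s (n + m) ≤ y.1 := hy ⟨m, rfl⟩
      exact le_trans (hs1.monotone (Nat.le_add_left m n)) h2
  · intro x _
    obtain ⟨s, hs1, hs2⟩ := hL.coi x.1 ⟨b, x.2.2⟩
    have h1 : ∃ n, s n < b := by
      by_contra hcon
      push Not at hcon
      have : b ≤ x.1 := hs2.2 (by rintro _ ⟨n, rfl⟩; exact hcon n)
      exact absurd x.2.2 (not_lt.mpr this)
    obtain ⟨n, hn⟩ := h1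
    have hsx : ∀ m, x.1 < s m := by
      intro m
      exact lt_of_le_of_lt (hs2.1 ⟨m + 1, rfl⟩) (hs1 (Nat.lt_succ_self m))
    have hmem : ∀ m, s (n + m) ∈ Ioo a b := fun m =>
      ⟨x.2.1.trans (hsx _), lt_of_le_of_lt (hs1.antitone (Nat.le_add_right n m)) hn⟩
    refine ⟨fun m => ⟨s (n + m), hmem m⟩, ?_, ?_, ?_⟩
    · intro i j hij
      exact hs1 (Nat.add_lt_add_left hij n)
    · rintro _ ⟨m, rfl⟩
      exact le_of_lt (hsx (n + m))
    · intro y hy
      apply hs2.2
      rintro _ ⟨m, rfl⟩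
      have h2 : y.1 ≤ s (n + m) := hy ⟨m, rfl⟩
      exact le_trans h2 (hs1.antitone (Nat.le_add_left m n))

theorem part3 (L : Type u) [LinearOrder L] (a b : L) :
    IsLE (fun x : ↥(Ioo a b) => (x : L)) := by
  refine ⟨fun x y h => h, ?_⟩
  letI tL : TopologicalSpace L := Preorder.topology L
  haveI : OrderTopology L := ⟨rfl⟩
  have h : OrderTopology ↥(Ioo a b) := orderTopology_of_ordConnected
  rw [← h.topology_eq_generate_intervals]
  exact continuous_subtype_val

theorem stmDiscr : StmDiscr.{u} := by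
  refine ⟨?_, ?_, ?_⟩
  · intro J T _ hb L _ _ a b _ hc
    exact part1 J T hb L a b hc
  · intro L _ a b hL hab
    exact part2 L a b hL hab
  · intro L _ a b
    exact part3 L a b

end Pool.Agent.N386.LB8
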