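import Pool.Agent.N708.MX.Stm

/-!
# Project MX, task TRIV: `K` is asymptotically trivial in the normalised Hilbert-Schmidt norm
-/

set_option autoImplicit false

namespace Pool.Agent.N386.MXTRIV

open Filter Topology Pool.Agent.N708.MX

noncomputable section

/-! ## The two norms -/

theorem opn_nonneg {d : ℕ} (M : Matrix (Fin d) (Fin d) ℂ) : 0 ≤ opn M := norm_nonneg _

theorem opn_add {d : ℕ} (M N : Matrix (Fin d) (Fin d) ℂ) : opn (M + N) ≤ opn M + opn N := by
  unfold opn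
  rw [map_add]
  exact norm_add_le _ _

theorem opn_mul {d : ℕ} (M N : Matrix (Fin d) (Fin d) ℂ) : opn (M * N) ≤ opn M * opn N := by
  unfold opn
  rw [map_mul]
  exact norm_mul_le _ _

theorem opn_neg {d : ℕ} (M : Matrix (Fin d) (Fin d) ℂ) : opn (-M) = opn M := by
  unfold opn
  rw [map_neg, norm_neg]

theorem opn_star {d : ℕ} (M : Matrix (Fin d) (Fin d) ℂ) : opn (star M) = opn M := by
  unfold opn
  rw [map_star, ContinuousLinearMap.star_eq_adjoint]
  exact LinearIsometryEquiv.norm_map _ _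

theorem opn_unitary {d : ℕ} (u : Matrix (Fin d) (Fin d) ℂ) (hu : star u * u = 1) :
    opn u ≤ 1 := by
  unfold opn
  refine ContinuousLinearMap.opNorm_le_bound _ zero_le_one (fun v => ?_)
  rw [one_mul]
  have h1 : star (Matrix.toEuclideanCLM (𝕜 := ℂ) u) * Matrix.toEuclideanCLM (𝕜 := ℂ) u = 1 := by
    rw [← map_star, ← map_mul, hu, map_one]
  have h2 : ‖Matrix.toEuclideanCLM (𝕜 := ℂ) u v‖ ^ 2 = ‖v‖ ^ 2 := by
    have h3 : (inner ℂ (Matrix.toEuclideanCLM (𝕜 := ℂ) u v)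
        (Matrix.toEuclideanCLM (𝕜 := ℂ) u v) : ℂ) = inner ℂ v v := by
      rw [← ContinuousLinearMap.adjoint_inner_right]
      have h4 : (ContinuousLinearMap.adjoint (Matrix.toEuclideanCLM (𝕜 := ℂ) u))
          (Matrix.toEuclideanCLM (𝕜 := ℂ) u v) = v := by
        have h5 := congrArg (fun T => T v) h1
        simpa [ContinuousLinearMap.star_eq_adjoint] using h5
      rw [h4]
    have h6 := congrArg Complex.re h3
    rw [inner_self_eq_norm_sq_to_K, inner_self_eq_norm_sq_to_K] at h6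
    norm_cast at h6
  exact le_of_eq (by
    have h7 := abs_eq_abs.mpr (sq_eq_sq_iff_eq_or_eq_neg.mp h2)
    rwa [abs_norm, abs_norm] at h7)

theorem hs2_eq {d : ℕ} (M : Matrix (Fin d) (Fin d) ℂ) :
    hs2 M = (∑ j, ∑ i, ‖M i j‖ ^ 2) / (d : ℝ) := by
  unfold hs2
  congr 1
  simp only [Matrix.trace, Matrix.diag_apply, Matrix.mul_apply, Matrix.conjTranspose_apply,
    Complex.re_sum]
  refine Finset.sum_congr rfl (fun j _ => Finset.sum_congr rfl (fun i _ => ?_))
  have h : star (M i j) * M i j = ((‖M i j‖ ^ 2 : ℝ) : ℂ) := by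
    rw [← starRingEnd_apply, mul_comm, Complex.mul_conj, Complex.normSq_eq_norm_sq]
  rw [h, Complex.ofReal_re]

theorem hs2_nonneg {d : ℕ} (M : Matrix (Fin d) (Fin d) ℂ) : 0 ≤ hs2 M := by
  rw [hs2_eq]
  positivity

theorem hs2_neg {d : ℕ} (M : Matrix (Fin d) (Fin d) ℂ) : hs2 (-M) = hs2 M := by
  rw [hs2_eq, hs2_eq]
  simp

theorem hs2_add {d : ℕ} (M N : Matrix (Fin d) (Fin d) ℂ) :
    hs2 (M + N) ≤ 2 * hs2 M + 2 * hs2 N := by
  rw [hs2_eq, hs2_eq, hs2_eq]
  have h : ∑ j, ∑ i, ‖(M + N) i j‖ ^ 2 ≤ 2 * (∑ j, ∑ i, ‖M i j‖ ^ 2) +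
      2 * (∑ j, ∑ i, ‖N i j‖ ^ 2) := by
    rw [Finset.mul_sum, Finset.mul_sum, ← Finset.sum_add_distrib]
    refine Finset.sum_le_sum (fun j _ => ?_)
    rw [Finset.mul_sum, Finset.mul_sum, ← Finset.sum_add_distrib]
    refine Finset.sum_le_sum (fun i _ => ?_)
    have h1 : ‖(M + N) i j‖ ≤ ‖M i j‖ + ‖N i j‖ := by
      rw [Matrix.add_apply]
      exact norm_add_le _ _
    have h2 := norm_nonneg ((M + N) i j)
    nlinarith [sq_nonneg (‖M i j‖ - ‖N i j‖)]
  have hd : (0 : ℝ) ≤ (d : ℝ) := Nat.cast_nonneg d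
  calc (∑ j, ∑ i, ‖(M + N) i j‖ ^ 2) / (d : ℝ)
      ≤ (2 * (∑ j, ∑ i, ‖M i j‖ ^ 2) + 2 * (∑ j, ∑ i, ‖N i j‖ ^ 2)) / (d : ℝ) := by
        gcongr
    _ = _ := by ring

/-- the columns of a matrix -/
theorem col_eq {d : ℕ} (M : Matrix (Fin d) (Fin d) ℂ) (j : Fin d) :
    ∑ i, ‖M i j‖ ^ 2 =
      ‖Matrix.toEuclideanCLM (𝕜 := ℂ) M (EuclideanSpace.single j 1)‖ ^ 2 := by
  rw [EuclideanSpace.norm_sq_eq]
  refine Finset.sum_congr rfl (fun i _ => ?_)
  congr 2
  rw [Matrix.ofLp_toEuclideanCLM, EuclideanSpace.ofLp_single, Matrix.mulVec_single_one]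
  rfl

theorem hs2_mul_left {d : ℕ} (M N : Matrix (Fin d) (Fin d) ℂ) :
    hs2 (M * N) ≤ opn M ^ 2 * hs2 N := by
  rw [hs2_eq, hs2_eq, ← mul_div_assoc, Finset.mul_sum]
  have hd : (0 : ℝ) ≤ (d : ℝ) := Nat.cast_nonneg d
  gcongr with j
  rw [col_eq, col_eq, ← mul_pow, map_mul]
  refine pow_le_pow_left₀ (norm_nonneg _) ?_ 2
  exact ContinuousLinearMap.le_opNorm (Matrix.toEuclideanCLM (𝕜 := ℂ) M)
    (Matrix.toEuclideanCLM (𝕜 := ℂ) N (EuclideanSpace.single j 1))

theorem hs2_star {d : ℕ} (M : Matrix (Fin d) (Fin d) ℂ) : hs2 (star M) = hs2 M := by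
  rw [hs2_eq, hs2_eq, Finset.sum_comm]
  congr 1
  refine Finset.sum_congr rfl (fun j _ => Finset.sum_congr rfl (fun i _ => ?_))
  rw [Matrix.star_apply, norm_star]

theorem hs2_one_le {d : ℕ} : hs2 (1 : Matrix (Fin d) (Fin d) ℂ) ≤ 1 := by
  unfold hs2
  rw [Matrix.conjTranspose_one, one_mul, Matrix.trace_one, Fintype.card_fin, Complex.natCast_re]
  exact div_self_le_one _

theorem hs2_le {d : ℕ} (M : Matrix (Fin d) (Fin d) ℂ) : hs2 M ≤ opn M ^ 2 := by
  have h := hs2_mul_left M 1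
  rw [mul_one] at h
  refine h.trans ?_
  have h1 := hs2_one_le (d := d)
  have h2 : 0 ≤ opn M ^ 2 := sq_nonneg _
  nlinarith

/-! ## Null sequences -/

variable {d : ℕ → ℕ}

/-- null sequences for the operator norm -/
def On (l : Filter ℕ) (x : ∀ n, Matrix (Fin (d n)) (Fin (d n)) ℂ) : Prop :=
  Tendsto (fun n => opn (x n)) l (𝓝 0)

/-- null sequences for the normalised Hilbert-Schmidt norm -/
def Zn (l : Filter ℕ) (x : ∀ n, Matrix (Fin (d n)) (Fin (d n)) ℂ) : Prop :=
  Tendsto (fun n => hs2 (x n)) l (𝓝 0)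

variable {l : Filter ℕ} {x y u : ∀ n, Matrix (Fin (d n)) (Fin (d n)) ℂ}

theorem On.add (hx : On l x) (hy : On l y) : On l (x + y) := by
  have h := Tendsto.add hx hy
  rw [add_zero] at h
  exact squeeze_zero (fun n => opn_nonneg _) (fun n => opn_add _ _) h

theorem On.neg (hx : On l x) : On l (-x) := by
  unfold On
  simp only [Pi.neg_apply, opn_neg]
  exact hx

theorem On.mulL (hx : On l x) (hu : star u * u = 1) : On l (u * x) := by
  refine squeeze_zero (fun n => opn_nonneg _) (fun n => ?_) hx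
  refine (opn_mul _ _).trans ?_
  have h := opn_unitary (u n) (congrFun hu n)
  have h2 := opn_nonneg (x n)
  nlinarith

theorem On.mulR (hx : On l x) (hu : star u * u = 1) : On l (x * u) := by
  refine squeeze_zero (fun n => opn_nonneg _) (fun n => ?_) hx
  refine (opn_mul _ _).trans ?_
  have h := opn_unitary (u n) (congrFun hu n)
  have h2 := opn_nonneg (x n)
  nlinarith

theorem On.star (hx : On l x) : On l (star x) := by
  unfold On
  simp only [Pi.star_apply, opn_star]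
  exact hx

theorem On.zn (hx : On l x) : Zn l x := by
  have h := Tendsto.pow hx 2
  rw [zero_pow two_ne_zero] at h
  exact squeeze_zero (fun n => hs2_nonneg _) (fun n => hs2_le _) h

theorem Zn.add (hx : Zn l x) (hy : Zn l y) : Zn l (x + y) := by
  have h := Tendsto.add (Tendsto.const_mul 2 hx) (Tendsto.const_mul 2 hy)
  rw [mul_zero, add_zero] at h
  exact squeeze_zero (fun n => hs2_nonneg _) (fun n => hs2_add _ _) h

theorem Zn.neg (hx : Zn l x) : Zn l (-x) := by
  unfold Zn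
  simp only [Pi.neg_apply, hs2_neg]
  exact hx

theorem Zn.star (hx : Zn l x) : Zn l (star x) := by
  unfold Zn
  simp only [Pi.star_apply, hs2_star]
  exact hx

theorem Zn.mulL (hx : Zn l x) (hu : Star.star u * u = 1) : Zn l (u * x) := by
  refine squeeze_zero (fun n => hs2_nonneg _) (fun n => ?_) hx
  refine (hs2_mul_left _ _).trans ?_
  have h := opn_unitary (u n) (congrFun hu n)
  have h2 := hs2_nonneg (x n)
  have h3 := opn_nonneg (u n)
  have h4 : opn (u n) ^ 2 ≤ 1 := pow_le_one₀ h3 h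
  nlinarith

theorem Zn.mulR (hx : Zn l x) (hu : u * Star.star u = 1) : Zn l (x * u) := by
  have h1 : Zn l (Star.star u * Star.star x) := by
    refine Zn.mulL hx.star ?_
    rw [star_star]
    exact hu
  have h2 := h1.star
  rw [star_mul, star_star, star_star] at h2
  exact h2

/-! ## The subgroup of asymptotically trivial elements -/

section main

variable {G : Type} [Group G] {U : ∀ n, G → Matrix.unitaryGroup (Fin (d n)) ℂ}

/-- the sequence of the matrices of `g` -/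
def uu (U : ∀ n, G → Matrix.unitaryGroup (Fin (d n)) ℂ) (g : G) :
    ∀ n, Matrix (Fin (d n)) (Fin (d n)) ℂ := fun n => (U n g).val

theorem uu1 (U : ∀ n, G → Matrix.unitaryGroup (Fin (d n)) ℂ) (g : G) :
    star (uu U g) * uu U g = 1 := by
  funext n
  exact Matrix.UnitaryGroup.star_mul_self (U n g)

theorem uu2 (U : ∀ n, G → Matrix.unitaryGroup (Fin (d n)) ℂ) (g : G) :
    uu U g * star (uu U g) = 1 := by
  funext n
  exact (Matrix.mem_unitaryGroup_iff.mp (U n g).2)

theorem ah (h : AH l d U) (g g' : G) : On l (uu U (g * g') - uu U g * uu U g') := h g g'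

theorem uu1' (U : ∀ n, G → Matrix.unitaryGroup (Fin (d n)) ℂ) (g : G) :
    star (star (uu U g)) * star (uu U g) = 1 := by
  rw [star_star]; exact uu2 U g

theorem uu2' (U : ∀ n, G → Matrix.unitaryGroup (Fin (d n)) ℂ) (g : G) :
    star (uu U g) * star (star (uu U g)) = 1 := by
  rw [star_star]; exact uu1 U g

theorem on_one (h : AH l d U) : On l (uu U 1 - 1) := by
  have h1 := (ah h 1 1)
  rw [mul_one] at h1
  have h2 := (h1.mulL (uu1' U 1)).neg
  have e : -(star (uu U 1) * (uu U 1 - uu U 1 * uu U 1)) = uu U 1 - 1 := by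
    rw [mul_sub, ← mul_assoc, uu1, one_mul]
    abel
  rw [e] at h2
  exact h2

theorem on_inv (h : AH l d U) (g : G) : On l (uu U g⁻¹ - star (uu U g)) := by
  have h1 := (ah h g g⁻¹)
  rw [mul_inv_cancel] at h1
  -- U(g) U(g⁻¹) - 1
  have h2 : On l (uu U g * uu U g⁻¹ - 1) := by
    have := (h1.neg).add (on_one h)
    have e : -(uu U 1 - uu U g * uu U g⁻¹) + (uu U 1 - 1) = uu U g * uu U g⁻¹ - 1 := by abel
    rwa [e] at this
  have h3 := h2.mulL (uu1' U g)
  have e : star (uu U g) * (uu U g * uu U g⁻¹ - 1) = uu U g⁻¹ - star (uu U g) := by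
    rw [mul_sub, ← mul_assoc, uu1, one_mul, mul_one]
  rwa [e] at h3

theorem on_conj (h : AH l d U) (b a : G) :
    On l (uu U (b * a * b⁻¹) - uu U b * uu U a * star (uu U b)) := by
  have h1 := ah h (b * a) b⁻¹
  have h2 := (ah h b a).mulR (uu1 U b⁻¹)
  have h3 := ((on_inv h b).mulL (uu1 U a)).mulL (uu1 U b)
  have h4 := (h1.add h2).add h3
  have e : (uu U (b * a * b⁻¹) - uu U (b * a) * uu U b⁻¹) +
      (uu U (b * a) - uu U b * uu U a) * uu U b⁻¹ +
      uu U b * (uu U a * (uu U b⁻¹ - star (uu U b))) =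
      uu U (b * a * b⁻¹) - uu U b * uu U a * star (uu U b) := by
    noncomm_ring
  rwa [e] at h4

theorem on_comm (h : AH l d U) (c k : G) :
    On l (uu U (c * k * c⁻¹ * k⁻¹) -
      uu U c * uu U k * star (uu U c) * star (uu U k)) := by
  have h1 := ah h (c * k * c⁻¹) k⁻¹
  have h2 := (on_conj h c k).mulR (uu1 U k⁻¹)
  have h3 := (((on_inv h k).mulL (uu1' U c)).mulL (uu1 U k)).mulL (uu1 U c)
  have h4 := (h1.add h2).add h3
  have e : (uu U (c * k * c⁻¹ * k⁻¹) - uu U (c * k * c⁻¹) * uu U k⁻¹) +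
      (uu U (c * k * c⁻¹) - uu U c * uu U k * star (uu U c)) * uu U k⁻¹ +
      uu U c * (uu U k * (star (uu U c) * (uu U k⁻¹ - star (uu U k)))) =
      uu U (c * k * c⁻¹ * k⁻¹) - uu U c * uu U k * star (uu U c) * star (uu U k) := by
    noncomm_ring
  rwa [e] at h4

/-- the normal subgroup of `K` -/
def NN {K : Type} [Group K] (ι : K →* G) (h : AH l d U) : Subgroup K where
  carrier := {a | Zn l (uu U (ι a) - 1)}
  one_mem' := by
    show Zn l (uu U (ι 1) - 1)
    rw [map_one]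
    exact (on_one h).zn
  mul_mem' := by
    intro a b ha hb
    show Zn l (uu U (ι (a * b)) - 1)
    rw [map_mul]
    have h1 := (ah h (ι a) (ι b)).zn
    have h2 := Zn.mulL hb (uu1 U (ι a))
    have h3 := (h1.add h2).add ha
    have e : uu U (ι a * ι b) - uu U (ι a) * uu U (ι b) + uu U (ι a) * (uu U (ι b) - 1) +
        (uu U (ι a) - 1) = uu U (ι a * ι b) - 1 := by noncomm_ring
    rwa [e] at h3
  inv_mem' := by
    intro a ha
    show Zn l (uu U (ι a⁻¹) - 1)
    rw [map_inv]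
    have h1 := (on_inv h (ι a)).zn
    have h2 := (Zn.mulL ha (uu1' U (ι a))).neg
    have h3 := h1.add h2
    have e : uu U (ι a)⁻¹ - star (uu U (ι a)) + -(star (uu U (ι a)) * (uu U (ι a) - 1)) =
        uu U (ι a)⁻¹ - 1 := by
      rw [mul_sub, uu1, mul_one]
      abel
    rwa [e] at h3

theorem mem_NN {K : Type} [Group K] (ι : K →* G) (h : AH l d U) (a : K) :
    a ∈ NN ι h ↔ Zn l (uu U (ι a) - 1) := Iff.rfl

theorem NN_normal {K : Type} [Group K] (ι : K →* G) (h : AH l d U) : (NN ι h).Normal := by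
  constructor
  intro a ha b
  rw [mem_NN] at ha ⊢
  rw [map_mul, map_mul, map_inv]
  have h1 := (on_conj h (ι b) (ι a)).zn
  have h2 := Zn.mulR (ha.mulL (uu1 U (ι b))) (uu2' U (ι b))
  have h3 := h1.add h2
  have e : uu U (ι b * ι a * (ι b)⁻¹) - uu U (ι b) * uu U (ι a) * star (uu U (ι b)) +
      uu U (ι b) * (uu U (ι a) - 1) * star (uu U (ι b)) =
      uu U (ι b * ι a * (ι b)⁻¹) - 1 := by
    have e2 : uu U (ι b) * (uu U (ι a) - 1) * star (uu U (ι b)) =
        uu U (ι b) * uu U (ι a) * star (uu U (ι b)) - uu U (ι b) * star (uu U (ι b)) := by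
      noncomm_ring
    rw [e2, uu2]
    abel
  rwa [e] at h3

end main

theorem t_triv : S_COM → S_TRIV := by
  intro hcom K G _ _ φ ι h k γ hT hγ hD l d U hU a
  have hN : NN ι hU = ⊤ := by
    rw [eq_top_iff, ← hD.nc]
    haveI := NN_normal ι hU
    apply Subgroup.normalClosure_le_normal
    rintro x ⟨c, b, hc, rfl⟩
    show c * b * c⁻¹ * b⁻¹ ∈ NN ι hU
    rw [mem_NN, map_mul, map_mul, map_mul, map_inv, map_inv]
    have h1 := (on_comm hU (ι c) (ι b)).zn
    have h2 : Zn l (uu U (ι c) * uu U (ι b) - uu U (ι b) * uu U (ι c)) :=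
      hcom K G φ ι h k γ hT hγ hD.rel l d U hU c hc b
    have h3 := (h2.mulR (uu2' U (ι c))).mulR (uu2' U (ι b))
    have h4 := h1.add h3
    have e : uu U (ι c * ι b * (ι c)⁻¹ * (ι b)⁻¹) -
        uu U (ι c) * uu U (ι b) * star (uu U (ι c)) * star (uu U (ι b)) +
        (uu U (ι c) * uu U (ι b) - uu U (ι b) * uu U (ι c)) * star (uu U (ι c)) *
          star (uu U (ι b)) = uu U (ι c * ι b * (ι c)⁻¹ * (ι b)⁻¹) - 1 := by
      have e2 : (uu U (ι c) * uu U (ι b) - uu U (ι b) * uu U (ι c)) * star (uu U (ι c)) *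
          star (uu U (ι b)) = uu U (ι c) * uu U (ι b) * star (uu U (ι c)) * star (uu U (ι b)) -
          uu U (ι b) * (uu U (ι c) * star (uu U (ι c))) * star (uu U (ι b)) := by
        noncomm_ring
      rw [e2, uu2, mul_one, uu2]
      abel
    rwa [e] at h4
  have ha : a ∈ NN ι hU := by rw [hN]; exact Subgroup.mem_top a
  exact (mem_NN ι hU a).mp ha

end

end Pool.Agent.N386.MXTRIV
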