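import Pool.Agent.N502.TM.Stm

/-!
# The equilibrium density of the ball
-/

set_option autoImplicit false

namespace Pool.Agent.N386.TM_EQB

open MeasureTheory Set Filter Topology
open scoped ENNReal Real InnerProductSpace
open Pool.Agent.N502.TM

theorem norm_act {d : ℕ} (g : O d) (x : V d) : ‖act g x‖ = ‖x‖ := by
  have h0 : (g : Matrix (Fin d) (Fin d) ℝ).transpose * (g : Matrix (Fin d) (Fin d) ℝ) = 1 := by
    have h := (Matrix.mem_orthogonalGroup_iff' (Fin d) ℝ).1 g.2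
    exact h
  have key : ∀ z : V d, ‖z‖ ^ 2 = (WithLp.ofLp z) ⬝ᵥ (WithLp.ofLp z) := by
    intro z
    rw [EuclideanSpace.real_norm_sq_eq]
    exact Finset.sum_congr rfl fun i _ => sq _
  have h1 : ‖act g x‖ ^ 2 = ‖x‖ ^ 2 := by
    rw [key, key]
    change (Matrix.mulVec (g : Matrix (Fin d) (Fin d) ℝ) (WithLp.ofLp x)) ⬝ᵥ
      (Matrix.mulVec (g : Matrix (Fin d) (Fin d) ℝ) (WithLp.ofLp x)) = _
    rw [Matrix.dotProduct_mulVec, ← Matrix.mulVec_transpose, Matrix.mulVec_mulVec, h0,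
      Matrix.one_mulVec]
  exact (sq_eq_sq₀ (norm_nonneg _) (norm_nonneg _)).1 h1

theorem norm_ext {m : ℕ} (y : V m) (t : ℝ) : ‖ext y t‖ ^ 2 = ‖y‖ ^ 2 + t ^ 2 := by
  rw [EuclideanSpace.real_norm_sq_eq, EuclideanSpace.real_norm_sq_eq, Fin.sum_univ_castSucc]
  unfold Pool.Agent.N502.TM.ext
  simp only [Fin.snoc_castSucc, Fin.snoc_last]

theorem img (h : ℝ) (hh : 0 < h) :
    (fun θ : ℝ => h * Real.sin θ) '' Ioo (-(π / 2)) (π / 2) = Ioo (-h) h := by
  ext t
  constructor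
  · rintro ⟨θ, hθ, rfl⟩
    have hc : 0 < Real.cos θ := Real.cos_pos_of_mem_Ioo hθ
    have h1 := Real.sin_sq_add_cos_sq θ
    have h2 : Real.sin θ < 1 := by nlinarith
    have h3 : -1 < Real.sin θ := by nlinarith
    constructor
    · show -h < h * Real.sin θ
      nlinarith
    · show h * Real.sin θ < h
      nlinarith
  · rintro ⟨h1, h2⟩
    have h3 : t / h < 1 := by rw [div_lt_one hh]; exact h2
    have h4 : -1 < t / h := by rw [lt_div_iff₀ hh]; linarith
    refine ⟨Real.arcsin (t / h), ⟨?_, ?_⟩, ?_⟩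
    · exact Real.neg_pi_div_two_lt_arcsin.2 h4
    · exact Real.arcsin_lt_pi_div_two.2 h3
    · show h * Real.sin (Real.arcsin (t / h)) = t
      rw [Real.sin_arcsin h4.le h3.le]
      field_simp

theorem int_pi (h : ℝ) (hh : 0 < h) :
    ∫⁻ t in Ioo (-h) h, ENNReal.ofReal ((h ^ 2 - t ^ 2) ^ (-(1 / 2) : ℝ)) = ENNReal.ofReal π := by
  rw [← img h hh]
  rw [lintegral_image_eq_lintegral_abs_deriv_mul (f' := fun θ => h * Real.cos θ) measurableSet_Ioo
    (fun θ _ => ((Real.hasDerivAt_sin θ).const_mul h).hasDerivWithinAt)]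
  · have h1 : ∀ θ ∈ Ioo (-(π / 2)) (π / 2), ENNReal.ofReal |h * Real.cos θ| *
        ENNReal.ofReal ((h ^ 2 - (h * Real.sin θ) ^ 2) ^ (-(1 / 2) : ℝ)) = 1 := by
      intro θ hθ
      have hc : 0 < h * Real.cos θ := mul_pos hh (Real.cos_pos_of_mem_Ioo hθ)
      have e : h ^ 2 - (h * Real.sin θ) ^ 2 = (h * Real.cos θ) ^ 2 := by
        have := Real.sin_sq_add_cos_sq θ
        have h2 : Real.cos θ ^ 2 = 1 - Real.sin θ ^ 2 := by linarith
        rw [mul_pow, mul_pow, h2]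
        ring
      rw [e, abs_of_pos hc, Real.rpow_neg (sq_nonneg _), ← Real.sqrt_eq_rpow,
        Real.sqrt_sq hc.le, ← ENNReal.ofReal_mul hc.le, mul_inv_cancel₀ hc.ne',
        ENNReal.ofReal_one]
    rw [setLIntegral_congr_fun measurableSet_Ioo h1, setLIntegral_one, Real.volume_Ioo]
    congr 1
    ring
  · intro a ha b hb hab
    have h1 : Real.sin a = Real.sin b := mul_left_cancel₀ hh.ne' hab
    exact Real.injOn_sin (Ioo_subset_Icc_self ha) (Ioo_subset_Icc_self hb) h1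

theorem line {m : ℕ} (r : ℝ) (hr : 0 < r) (y : V m) (F : ℝ → V (m + 1))
    (hF : ∀ t, ‖F t‖ ^ 2 = ‖y‖ ^ 2 + t ^ 2) :
    ∫⁻ t, fB (m + 1) r (F t) =
      (Metric.ball (0 : V m) r).indicator (fun _ => ENNReal.ofReal π) y := by
  by_cases hy : y ∈ Metric.ball (0 : V m) r
  · rw [indicator_of_mem hy]
    rw [mem_ball_zero_iff] at hy
    have hp : 0 < r ^ 2 - ‖y‖ ^ 2 := by
      have := norm_nonneg y
      nlinarith
    have hh : 0 < √(r ^ 2 - ‖y‖ ^ 2) := Real.sqrt_pos.2 hp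
    have hh2 : √(r ^ 2 - ‖y‖ ^ 2) ^ 2 = r ^ 2 - ‖y‖ ^ 2 := Real.sq_sqrt hp.le
    rw [← int_pi _ hh, ← lintegral_indicator measurableSet_Ioo]
    refine lintegral_congr fun t => ?_
    unfold fB
    have e : r ^ 2 - ‖F t‖ ^ 2 = √(r ^ 2 - ‖y‖ ^ 2) ^ 2 - t ^ 2 := by
      rw [hF, hh2]
      ring
    have hiff : F t ∈ Metric.ball (0 : V (m + 1)) r ↔
        t ∈ Ioo (-√(r ^ 2 - ‖y‖ ^ 2)) (√(r ^ 2 - ‖y‖ ^ 2)) := by
      rw [mem_ball_zero_iff, mem_Ioo, ← abs_lt, ← sq_lt_sq₀ (norm_nonneg _) hr.le,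
        ← sq_lt_sq₀ (abs_nonneg _) hh.le, sq_abs]
      constructor
      · intro h
        linarith
      · intro h
        linarith
    by_cases ht : t ∈ Ioo (-√(r ^ 2 - ‖y‖ ^ 2)) (√(r ^ 2 - ‖y‖ ^ 2))
    · rw [indicator_of_mem ht, indicator_of_mem (hiff.2 ht), e]
    · rw [indicator_of_notMem ht, indicator_of_notMem (fun h => ht (hiff.1 h))]
  · rw [indicator_of_notMem hy]
    rw [lintegral_eq_zero_of_ae_eq_zero]
    refine Eventually.of_forall fun t => ?_
    unfold fB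
    have h1 : F t ∉ Metric.ball (0 : V (m + 1)) r := by
      rw [mem_ball_zero_iff] at hy ⊢
      rw [← sq_lt_sq₀ (norm_nonneg _) hr.le] at hy ⊢
      rw [hF]
      intro h
      apply hy
      have := sq_nonneg t
      linarith
    exact indicator_of_notMem h1 _

theorem fB_meas (d : ℕ) (r : ℝ) : Measurable (fB d r) := by
  unfold fB
  refine Measurable.indicator ?_ measurableSet_ball
  fun_prop

theorem mass (m : ℕ) (r : ℝ) (hr : 0 < r) :
    ∫⁻ x, fB (m + 1) r x = ENNReal.ofReal π * volume (Metric.ball (0 : V m) r) := by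
  have hm := fB_meas (m + 1) r
  -- pass to functions on `Fin (m + 1)`
  have h1 : ∫⁻ x, fB (m + 1) r x =
      ∫⁻ z : Fin (m + 1) → ℝ, fB (m + 1) r (WithLp.toLp 2 z) :=
    ((PiLp.volume_preserving_toLp (Fin (m + 1))).lintegral_comp hm).symm
  have hem : MeasurePreserving (MeasurableEquiv.piFinSuccAbove (fun _ => ℝ) (Fin.last m)).symm :=
    (volume_preserving_piFinSuccAbove (fun _ : Fin (m + 1) => ℝ) (Fin.last m)).symm _
  have hm' : Measurable fun z : Fin (m + 1) → ℝ => fB (m + 1) r (WithLp.toLp 2 z) :=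
    hm.comp (PiLp.volume_preserving_toLp (Fin (m + 1))).measurable
  have h2 : ∫⁻ z : Fin (m + 1) → ℝ, fB (m + 1) r (WithLp.toLp 2 z) =
      ∫⁻ p : ℝ × (Fin m → ℝ), fB (m + 1) r (WithLp.toLp 2
        ((MeasurableEquiv.piFinSuccAbove (fun _ => ℝ) (Fin.last m)).symm p)) :=
    (hem.lintegral_comp hm').symm
  have h3 : ∀ (t : ℝ) (y : Fin m → ℝ), WithLp.toLp 2
      ((MeasurableEquiv.piFinSuccAbove (fun _ => ℝ) (Fin.last m)).symm (t, y)) =
      (ext (WithLp.toLp 2 y) t : V (m + 1)) := by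
    intro t y
    unfold Pool.Agent.N502.TM.ext
    rw [MeasurableEquiv.piFinSuccAbove_symm_apply]
    congr 1
    exact Fin.insertNth_last' t y
  have h4 : ∫⁻ p : ℝ × (Fin m → ℝ), fB (m + 1) r (WithLp.toLp 2
        ((MeasurableEquiv.piFinSuccAbove (fun _ => ℝ) (Fin.last m)).symm p)) =
      ∫⁻ y : Fin m → ℝ, ∫⁻ t : ℝ, fB (m + 1) r (ext (WithLp.toLp 2 y) t) := by
    have hmp : AEMeasurable (fun p : ℝ × (Fin m → ℝ) => fB (m + 1) r (WithLp.toLp 2
        ((MeasurableEquiv.piFinSuccAbove (fun _ => ℝ) (Fin.last m)).symm p)))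
        ((volume : Measure ℝ).prod (volume : Measure (Fin m → ℝ))) :=
      (hm'.comp hem.measurable).aemeasurable
    rw [Measure.volume_eq_prod, lintegral_prod_symm _ hmp]
    refine lintegral_congr fun y => lintegral_congr fun t => ?_
    rw [h3]
  rw [h1, h2, h4]
  have h5 : ∀ y : Fin m → ℝ, ∫⁻ t : ℝ, fB (m + 1) r (ext (WithLp.toLp 2 y) t) =
      (Metric.ball (0 : V m) r).indicator (fun _ => ENNReal.ofReal π) (WithLp.toLp 2 y) :=
    fun y => line r hr _ _ fun t => norm_ext _ t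
  rw [lintegral_congr h5]
  have h6 : ∫⁻ y : Fin m → ℝ, (Metric.ball (0 : V m) r).indicator
      (fun _ => ENNReal.ofReal π) (WithLp.toLp 2 y) =
      ∫⁻ y : V m, (Metric.ball (0 : V m) r).indicator (fun _ => ENNReal.ofReal π) y :=
    (PiLp.volume_preserving_toLp (Fin m)).lintegral_comp
      (measurable_const.indicator measurableSet_ball)
  rw [h6, lintegral_indicator_const measurableSet_ball]

theorem main : Pool.Agent.N502.TM.S_EQB where
  mass := mass
  line := by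
    intro m r hr ν _
    unfold QQ
    have h1 : ∀ g : O (m + 1), ∫⁻ y : V m, (∫⁻ t : ℝ, fB (m + 1) r (act g (ext y t))) ^ 2 =
        ENNReal.ofReal (π ^ 2) * volume (Metric.ball (0 : V m) r) := by
      intro g
      have h2 : ∀ y : V m, (∫⁻ t : ℝ, fB (m + 1) r (act g (ext y t))) ^ 2 =
          (Metric.ball (0 : V m) r).indicator (fun _ => ENNReal.ofReal (π ^ 2)) y := by
        intro y
        rw [line r hr y (fun t => act g (ext y t)) (fun t => by rw [norm_act, norm_ext])]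
        by_cases hy : y ∈ Metric.ball (0 : V m) r
        · rw [indicator_of_mem hy, indicator_of_mem hy, ENNReal.ofReal_pow Real.pi_pos.le]
        · rw [indicator_of_notMem hy, indicator_of_notMem hy, zero_pow two_ne_zero]
      rw [lintegral_congr h2, lintegral_indicator_const measurableSet_ball]
    rw [lintegral_congr h1, lintegral_const, measure_univ, mul_one]

end Pool.Agent.N386.TM_EQB
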