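import Pool.Agent.N502.TM.Stm

/-!
# Polarization of sets
-/

set_option autoImplicit false

namespace Pool.Agent.N386.TM_PLS

open MeasureTheory Set Filter Topology
open scoped ENNReal Real InnerProductSpace
open Pool.Agent.N502.TM

variable {d : ℕ}

theorem inner_rfl (v : V d) (t : ℝ) (hv : ‖v‖ = 1) (x : V d) :
    ⟪rfl' v t x, v⟫_ℝ = 2 * t - ⟪x, v⟫_ℝ := by
  unfold rfl'
  rw [inner_sub_left, real_inner_smul_left, real_inner_self_eq_norm_sq, hv]
  ring

theorem rfl_rfl (v : V d) (t : ℝ) (hv : ‖v‖ = 1) (x : V d) : rfl' v t (rfl' v t x) = x := by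
  have h := inner_rfl v t hv x
  have h1 : rfl' v t (rfl' v t x) = rfl' v t x - (2 * (⟪rfl' v t x, v⟫_ℝ - t)) • v := rfl
  have h2 : rfl' v t x = x - (2 * (⟪x, v⟫_ℝ - t)) • v := rfl
  rw [h1, h, h2, sub_sub, ← add_smul]
  have e : 2 * (⟪x, v⟫_ℝ - t) + 2 * (2 * t - ⟪x, v⟫_ℝ - t) = 0 := by ring
  rw [e, zero_smul, sub_zero]

theorem norm_rfl (v : V d) (t : ℝ) (hv : ‖v‖ = 1) (x : V d) :
    ‖rfl' v t x‖ ^ 2 = ‖x‖ ^ 2 - 4 * t * (⟪x, v⟫_ℝ - t) := by
  unfold rfl'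
  rw [norm_sub_sq_real, real_inner_smul_right, norm_smul, mul_pow, hv, Real.norm_eq_abs, sq_abs]
  ring

theorem mp (v : V d) (t : ℝ) (hv : ‖v‖ = 1) : MeasurePreserving (rfl' v t) := by
  have h1 : MeasurePreserving (Submodule.reflection (ℝ ∙ v)ᗮ) :=
    LinearIsometryEquiv.measurePreserving _
  have h2 := (measurePreserving_add_right (volume : Measure (V d)) ((2 * t) • v)).comp h1
  have h3 : rfl' v t = (fun x => x + (2 * t) • v) ∘ (Submodule.reflection (ℝ ∙ v)ᗮ) := by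
    funext x
    rw [Function.comp_apply, Submodule.reflection_orthogonal_apply,
      Submodule.reflection_singleton_apply]
    unfold rfl'
    rw [hv, real_inner_comm x v]
    simp only [RCLike.ofReal_real_eq_id, id_eq, one_pow, div_one]
    rw [neg_sub, two_smul, ← add_smul, sub_add, ← sub_smul]
    congr 2
    ring
  rw [h3]
  exact h2

theorem rfl_eq (v : V d) (t : ℝ) (x : V d) (hx : ⟪x, v⟫_ℝ = t) : rfl' v t x = x := by
  unfold rfl'
  rw [hx, sub_self, mul_zero, zero_smul, sub_zero]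

theorem measH (v : V d) (t : ℝ) : MeasurableSet {x : V d | ⟪x, v⟫_ℝ ≤ t} :=
  measurableSet_le (by fun_prop) measurable_const

theorem meas (v : V d) (t : ℝ) (E : Set (V d)) (hv : ‖v‖ = 1) (hE : MeasurableSet E) :
    MeasurableSet (polS v t E) := by
  have h1 := measH v t
  have h2 : MeasurableSet (rfl' v t ⁻¹' E) := (mp v t hv).measurable hE
  have h3 : polS v t E = ({x : V d | ⟪x, v⟫_ℝ ≤ t} ∩ (E ∪ rfl' v t ⁻¹' E)) ∪
      ({x : V d | ⟪x, v⟫_ℝ ≤ t}ᶜ ∩ (E ∩ rfl' v t ⁻¹' E)) := by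
    ext x
    simp only [polS, mem_setOf_eq, mem_union, mem_inter_iff, mem_preimage, mem_compl_iff, not_le]
  rw [h3]
  exact (h1.inter (hE.union h2)).union (h1.compl.inter (hE.inter h2))

theorem vol (v : V d) (t : ℝ) (E : Set (V d)) (hv : ‖v‖ = 1) (hE : MeasurableSet E) :
    volume (polS v t E) = volume E := by
  have hH := measH v t
  have h2 : MeasurableSet (rfl' v t ⁻¹' E) := (mp v t hv).measurable hE
  have hP := meas v t E hv hE
  -- split both sets by the half space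
  rw [← measure_inter_add_sdiff (polS v t E) hH, ← measure_inter_add_sdiff E hH]
  -- split the inner part of the polarization by `E`
  rw [← measure_inter_add_sdiff (polS v t E ∩ {x : V d | ⟪x, v⟫_ℝ ≤ t}) hE]
  -- split the outer part of `E` by the reflected set
  rw [← measure_inter_add_sdiff (E \ {x : V d | ⟪x, v⟫_ℝ ≤ t}) h2]
  have e1 : polS v t E ∩ {x : V d | ⟪x, v⟫_ℝ ≤ t} ∩ E = E ∩ {x : V d | ⟪x, v⟫_ℝ ≤ t} := by
    ext x
    simp only [polS, mem_setOf_eq, mem_inter_iff]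
    constructor
    · rintro ⟨⟨_, h⟩, h'⟩
      exact ⟨h', h⟩
    · rintro ⟨h, h'⟩
      exact ⟨⟨Or.inl ⟨h', Or.inl h⟩, h'⟩, h⟩
  have e2 : polS v t E \ {x : V d | ⟪x, v⟫_ℝ ≤ t} =
      (E \ {x : V d | ⟪x, v⟫_ℝ ≤ t}) ∩ rfl' v t ⁻¹' E := by
    ext x
    simp only [polS, mem_setOf_eq, mem_inter_iff, mem_diff, mem_preimage, not_le]
    constructor
    · rintro ⟨h, h'⟩
      rcases h with h | h
      · exact absurd h.1 (not_le.2 h')
      · exact ⟨⟨h.2.1, h'⟩, h.2.2⟩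
    · rintro ⟨⟨h, h'⟩, h''⟩
      exact ⟨Or.inr ⟨h', h, h''⟩, h'⟩
  have e3 : (polS v t E ∩ {x : V d | ⟪x, v⟫_ℝ ≤ t}) \ E =
      rfl' v t ⁻¹' ((E \ {x : V d | ⟪x, v⟫_ℝ ≤ t}) \ rfl' v t ⁻¹' E) := by
    ext x
    simp only [polS, mem_setOf_eq, mem_inter_iff, mem_diff, mem_preimage, not_le, rfl_rfl v t hv,
      inner_rfl v t hv]
    constructor
    · rintro ⟨⟨h, h'⟩, h''⟩
      have h3 : rfl' v t x ∈ E := by
        rcases h with h | h
        · exact h.2.resolve_left h''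
        · exact h.2.2
      refine ⟨⟨h3, ?_⟩, h''⟩
      have h4 : ⟪x, v⟫_ℝ ≠ t := by
        intro h4
        rw [rfl_eq v t x h4] at h3
        exact h'' h3
      have h5 := lt_of_le_of_ne h' h4
      linarith
    · rintro ⟨⟨h, h'⟩, h''⟩
      have h5 : ⟪x, v⟫_ℝ ≤ t := by linarith
      exact ⟨⟨Or.inl ⟨h5, Or.inr h⟩, h5⟩, h''⟩
  rw [e1, e2, e3, (mp v t hv).measure_preimage ((hE.diff hH).diff h2).nullMeasurableSet]
  rw [add_assoc]
  congr 1
  exact add_comm _ _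

theorem bdd (v : V d) (t : ℝ) (E : Set (V d)) (R : ℝ) (hv : ‖v‖ = 1) (ht : 0 ≤ t)
    (hE : E ⊆ Metric.closedBall 0 R) : polS v t E ⊆ Metric.closedBall 0 R := by
  intro x hx
  rcases hx with ⟨h1, h2 | h2⟩ | h1
  · exact hE h2
  · have h3 := hE h2
    rw [mem_closedBall_zero_iff] at h3 ⊢
    refine le_trans ?_ h3
    have h4 := norm_rfl v t hv x
    have h5 : ‖x‖ ^ 2 ≤ ‖rfl' v t x‖ ^ 2 := by
      rw [h4]
      have : 0 ≤ t * (t - ⟪x, v⟫_ℝ) := mul_nonneg ht (by linarith)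
      nlinarith
    exact (sq_le_sq₀ (norm_nonneg _) (norm_nonneg _)).1 h5
  · exact hE h1.2.1

theorem ae_le (v : V d) (t : ℝ) (E : Set (V d)) (u : V d → ℝ) (I : ℝ) (hv : ‖v‖ = 1)
    (h : ∀ᵐ x, x ∈ E → I ≤ u x) : ∀ᵐ x, x ∈ polS v t E → I ≤ polF v t u x := by
  have h' : ∀ᵐ x, rfl' v t x ∈ E → I ≤ u (rfl' v t x) :=
    (mp v t hv).quasiMeasurePreserving.ae h
  filter_upwards [h, h'] with x hx hx' hp
  unfold polF
  rcases hp with ⟨h1, h2⟩ | ⟨h1, h2, h3⟩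
  · rw [if_pos h1]
    rcases h2 with h2 | h2
    · exact le_max_of_le_left (hx h2)
    · exact le_max_of_le_right (hx' h2)
  · rw [if_neg (not_le.2 h1)]
    exact le_min (hx h2) (hx' h3)

theorem main : Pool.Agent.N502.TM.S_PLS where
  meas := fun _ v t E hv hE => meas v t E hv hE
  vol := fun _ v t E hv hE => vol v t E hv hE
  bdd := fun _ v t E R hv ht hE => bdd v t E R hv ht hE
  mp := fun _ v t hv => mp v t hv
  ae_le := fun _ v t E u I hv h => ae_le v t E u I hv h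

end Pool.Agent.N386.TM_PLS
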